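import Mathlib
import Pool.Agent.Lib.helper22.SHD

set_option autoImplicit false

namespace Pool.Agent.Results.MP_f85c9e_gt.Counterexample

open H22S

theorem result : ∃ (X : Type) (_ : TopologicalSpace X),
    T35Space X ∧ SHD (PR X) ∧ ¬ SHD X :=
  ⟨D, inferInstance, inferInstance, shd_PR, not_shd_D⟩

end Pool.Agent.Results.MP_f85c9e_gt.Counterexample
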